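import Pool.Agent.H25.VT.Stmt
import Pool.Agent.H25.VT.Bridge

/-!
# MP_2116eb_an: variable exponent Triebel-Lizorkin spaces with unbounded `q`

For `p, q` in `𝒫^log` with `p⁺ < ∞` (no condition on `q⁺`, so `q` may be unbounded and may take
the value `∞`) and `s` in `C^log_loc`, the space `F^{s(·)}_{p(·),q(·)}(ℝⁿ)` is independent of the
resolution of unity.
-/

set_option autoImplicit false

open MeasureTheory
open scoped ENNReal

namespace Pool.Agent.Results.MP_2116eb_an.ResolutionIndependence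

open Pool.Agent.H25.VT.St

theorem result (n : ℕ) (hn : 1 ≤ n) (p q : EuclideanSpace ℝ (Fin n) → ℝ≥0∞)
    (s : EuclideanSpace ℝ (Fin n) → ℝ) (hp : LogExponent p) (hq : LogExponent q)
    (hps : essSup p volume < ∞) (hs : LogHolderLoc s) : ResolutionIndependent p q s := by
  obtain ⟨hpm, ⟨c₁, hc₁, hpc⟩, hpl⟩ := hp
  obtain ⟨hqm, ⟨c₂, hc₂, hqc⟩, hql⟩ := hq
  have hFIN := Pool.Agent.H25.VT.Asm.fin_of.1 n
  have hREP := Pool.Agent.H25.VT.Asm.fin_of.2 n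
  have hc : 0 < min c₁ c₂ := lt_min hc₁ hc₂
  have hpc' : ∀ x, ENNReal.ofReal (min c₁ c₂) < p x := fun x =>
    lt_of_le_of_lt (ENNReal.ofReal_le_ofReal (min_le_left _ _)) (hpc x)
  have hqc' : ∀ x, ENNReal.ofReal (min c₁ c₂) < q x := fun x =>
    lt_of_le_of_lt (ENNReal.ofReal_le_ofReal (min_le_right _ _)) (hqc x)
  intro φ ψ hφ hψ
  obtain ⟨C₁, -, h1t, h1⟩ := hFIN p q s _ hn hc hpm hqm hpc' hqc' hpl hql hps hs φ ψ hφ hψ
  obtain ⟨C₂, h20, h2t, h2⟩ := hFIN p q s _ hn hc hpm hqm hpc' hqc' hpl hql hps hs ψ φ hψ hφ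
  refine ⟨?_, ?_, C₁ + C₂, ?_, ENNReal.add_ne_top.mpr ⟨h1t, h2t⟩, fun f => ⟨?_, ?_⟩⟩
  · intro f j
    obtain ⟨r1, r2, r3⟩ := hREP φ f j
    rw [Pool.Agent.H25.VT.Bridge.pieceFn_eq]
    refine ⟨r1, r2, fun u => ?_⟩
    rw [Pool.Agent.H25.VT.Bridge.piece_eq]
    exact r3 u
  · ext f
    unfold TLSpace
    rw [Set.mem_setOf_eq, Set.mem_setOf_eq, Pool.Agent.H25.VT.Bridge.tl_eq,
      Pool.Agent.H25.VT.Bridge.tl_eq]
    constructor
    · intro hf
      exact lt_of_le_of_lt (h2 f) (ENNReal.mul_lt_top h2t.lt_top hf)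
    · intro hf
      exact lt_of_le_of_lt (h1 f) (ENNReal.mul_lt_top h1t.lt_top hf)
  · intro h0
    exact h20 (add_eq_zero.mp h0).2
  · rw [Pool.Agent.H25.VT.Bridge.tl_eq, Pool.Agent.H25.VT.Bridge.tl_eq]
    exact (h1 f).trans (mul_le_mul' le_self_add le_rfl)
  · rw [Pool.Agent.H25.VT.Bridge.tl_eq, Pool.Agent.H25.VT.Bridge.tl_eq]
    exact (h2 f).trans (mul_le_mul' le_add_self le_rfl)

end Pool.Agent.Results.MP_2116eb_an.ResolutionIndependence
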